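import Pool.Agent.Lib.MP_f8fa1d_co.LogDens
import Pool.Agent.Lib.MP_f8fa1d_co.Num.UpperNum
import Pool.Agent.Lib.MP_f8fa1d_co.Num.LowerNum

/-!
The natural densities of the sets of positive integers without 3-term geometric progressions form a
closed interval `[0, s]` with `0.7197 < s < 0.7207`; the densities which guarantee a 3-term geometric
progression are those in `(s, 1]`; `s` is determined by finite optimisation problems with explicit
errors; the logarithmic densities form the same interval, and every set without 3-term geometric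
progressions has upper logarithmic density, hence lower density, at most `s`.
-/

namespace Pool.Agent.Results.MP_f8fa1d_co.DensityInterval

open Pool.Agent.Lib.MP_f8fa1d_co Filter

theorem liminf_le {A : Set ℕ} (hA : GPFree A) :
    liminf (fun n : ℕ => ((A ∩ Set.Ico 1 n).ncard : ℝ) / n) atTop ≤ supDensity := by
  rw [supDensity_eq]
  apply le_of_forall_lt
  intro c hc
  have hb : IsBoundedUnder (· ≥ ·) atTop
      (fun n : ℕ => ((A ∩ Set.Ico 1 n).ncard : ℝ) / n) :=
    isBoundedUnder_of ⟨0, fun n => div_nonneg (Nat.cast_nonneg _) (Nat.cast_nonneg _)⟩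
  obtain ⟨b, hcb, hbl⟩ := exists_between hc
  have h1 := eventually_lt_of_lt_liminf hbl hb
  refine hcb.trans_le (lower_le_sigma hA ?_)
  filter_upwards [h1, eventually_ge_atTop 1] with n hn hn1
  have hn0 : (0 : ℝ) < n := by exact_mod_cast hn1
  rw [lt_div_iff₀ hn0] at hn
  refine hn.le.trans ?_
  have h2 : (A ∩ Set.Ico 1 n).ncard ≤ cnt A n := by
    unfold cnt
    apply Set.ncard_le_ncard _ (cnt_finite A n)
    rintro x ⟨hx, hx1, hx2⟩
    exact ⟨hx, hx1, hx2.le⟩
  exact_mod_cast h2

open Classical in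
theorem result :
    {d : ℝ | ∃ A : Set ℕ, GPFree A ∧ HasDensity A d} = Set.Icc 0 supDensity ∧
    (∀ α ∈ Set.Icc (0 : ℝ) 1, Guarantees α ↔ supDensity < α) ∧
    0.7197 < supDensity ∧ supDensity < 0.7207 ∧
    (∀ k N : ℕ, 2 ≤ k → optDensity k N - 1 / ((k : ℝ) - 1) ≤ supDensity ∧
      supDensity ≤ optDensity k N +
        (∏ p ∈ k.primesBelow, (1 + 1 / Real.sqrt p)) / Real.sqrt (N + 1)) ∧
    {d : ℝ | ∃ A : Set ℕ, GPFree A ∧ HasLogDensity A d} = Set.Icc 0 supDensity ∧
    ∀ A : Set ℕ, GPFree A →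
      (∀ ε : ℝ, 0 < ε → ∀ᶠ N : ℕ in atTop,
        ∑ n ∈ (Finset.Icc 1 N).filter (· ∈ A), 1 / (n : ℝ) ≤ (supDensity + ε) * Real.log N) ∧
      liminf (fun n : ℕ => ((A ∩ Set.Ico 1 n).ncard : ℝ) / n) atTop ≤ supDensity :=
  ⟨densities_eq, fun _ hα => guarantees_iff hα.1, Num.lt_supDensity, Num.supDensity_lt,
    fun k N hk => ⟨optDensity_lower hk N,
      (optDensity_upper k N).trans (by linarith [tailDensity_le k N])⟩,
    logDensities_eq, fun _ hA => ⟨fun _ hε => log_density_le hA hε, liminf_le hA⟩⟩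

end Pool.Agent.Results.MP_f8fa1d_co.DensityInterval
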