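import Pool.Agent.Lib.MP_f8fa1d_co.RankinDensity

/-!
Rankin's greedy set (density about `0.7197`) does not have the largest natural density among the
sets without 3-term geometric progressions.
-/

namespace Pool.Agent.Results.MP_f8fa1d_co.RankinNotOptimal

open Pool.Agent.Lib.MP_f8fa1d_co

theorem result :
    ∃ ρ d : ℝ, HasDensity RankinSet ρ ∧ ρ < d ∧ ∃ A : Set ℕ, GPFree A ∧ HasDensity A d :=
  ⟨rho, sigma, Rankin_density, rho_lt_sigma, attained⟩

end Pool.Agent.Results.MP_f8fa1d_co.RankinNotOptimal
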